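import Pool.Agent.helper64.NQ.Spec

/-!
# Project nq (MP_baa4d7_al), row BAS: the case `P = ⊥` for two generators
-/

set_option autoImplicit false

namespace Pool.Agent.NQ

open Pool.Agent.helper58.DC Pool.Agent.DI Pool.Agent.DR

theorem BAS_fin (hIF : IF_stmt) {G : Type} [Group G] [Finite G] (p : ℕ)
    (M : Ideal (integralClosure ℤ ℂ)) (χ : G → ℂ) :
    {x : Finset (Subgroup G) × (G → ℂ) | IsPair p M χ x}.Finite := by
  classical
  have : Finite (Subgroup G) := inferInstance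
  have : Finite (Finset (Subgroup G)) := by
    have := Fintype.ofFinite (Subgroup G)
    infer_instance
  have h : (⋃ C : Finset (Subgroup G), (fun ψ => (C, ψ)) '' IrrOn (nrm C)).Finite :=
    Set.finite_iUnion fun C => ((hIF G (nrm C)).1).image _
  refine h.subset ?_
  rintro ⟨C, ψ⟩ hx
  exact Set.mem_iUnion.2 ⟨C, ψ, hx.2.1, rfl⟩

theorem BAS_gen {A : Type} [Group A] [Finite A] (ω : A → A → ℂˣ) (h1 : ∀ y z, ω y z = 1) :
    JQ ⊤ ω = ({x : A × A | Subgroup.closure {x.1, x.2} = (⊤ : Subgroup A)}.ncard : ℂ) := by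
  classical
  unfold JQ
  have hf : {x : A × A | Subgroup.closure {x.1, x.2} = (⊤ : Subgroup A)}.Finite :=
    Set.toFinite _
  rw [finsum_mem_eq_finite_toFinset_sum _ hf, Set.ncard_eq_toFinset_card _ hf]
  rw [Finset.sum_congr rfl (g := fun _ => (1 : ℂ)) fun x _ => by rw [h1]; simp]
  simp

theorem BAS (hSUM : SUM_stmt) (hASE : ASE_stmt) (hCN0 : CN0_stmt) (hOMC : OMC_stmt)
    (hRST : RST_stmt) (hPAL : PAL_stmt) (hB13 : B13_stmt) (hIF : IF_stmt) : BAS_stmt := by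
  classical
  intro p _ M hM hpM 𝒳 hcl hOI G E A _ _ _ _ _ _ X hE hTw hcyc hop χ hχ hst d hd
  obtain ⟨-, hcomm, hpA, s, t, hgen⟩ := hTw
  have hab : ∀ a b : A, a * b = b * a := by
    intro a b
    have h := hcomm a b
    rw [Subgroup.mem_bot] at h
    calc a * b = (a * b * a⁻¹ * b⁻¹) * (b * a) := by group
      _ = b * a := by rw [h, one_mul]
  rw [Subgroup.index_bot] at hpA
  -- facts about pairs
  have hpair : ∀ x : Finset (Subgroup G) × (G → ℂ), IsPair p M χ x →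
      ext0 X.inc x.2 ∈ IrrOn (X.stab x.1 x.2 ⊓ X.proj.ker) ∧
      (∀ s ∈ X.stab x.1 x.2, funMap (MulAut.conj s) (ext0 X.inc x.2) = ext0 X.inc x.2) ∧
      X.stab x.1 x.2 ⊓ X.proj.ker = (nrm x.1).map X.inc := by
    intro x hx
    obtain ⟨P₀, hP₀, -⟩ := hx.1.radical
    obtain ⟨-, -, h3⟩ := hRST G E A X x.1 hx.1.chain ⟨P₀, hP₀⟩
    obtain ⟨-, h5, h6⟩ := h3 x.2 hx.2.1
    refine ⟨?_, h6, h5⟩
    rw [h5]
    exact ((hB13 G E p X.inc X.inc_injective (nrm x.1)).2.1 x.2).1 hx.2.1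
  have hex : ∀ x : Finset (Subgroup G) × (G → ℂ), ∃ α : A → A → ℂˣ, IsPair p M χ x →
      Asc (X.stab x.1 x.2) X.proj (ext0 X.inc x.2) α := by
    intro x
    by_cases hx : IsPair p M χ x
    · obtain ⟨h1, h2, -⟩ := hpair x hx
      obtain ⟨α, hα⟩ := hASE E A X.proj (X.stab x.1 x.2) _ h1 h2
      exact ⟨α, fun _ => hα⟩
    · exact ⟨fun _ _ => 1, fun h => absurd h hx⟩
  choose α hα using hex
  have hbot : InvX p M 𝒳 (⊥ : Subgroup A) := hOI (⊥ : Subgroup A) inferInstance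
  have hsum := hSUM G E A X p M hM hpM hop χ hχ hst hab hpA 𝒳 hcl hE ⊥ ⊤
    (by rw [Subgroup.card_bot]; exact Nat.coprime_one_left _) hbot d hd α hα
  have hset : {x : Finset (Subgroup G) × (G → ℂ) | IsPair p M χ x ∧ dfc p x = d ∧
      (⊥ : Subgroup A) ⊔ ⊤ ≤ Vx X x} =
      {x : Finset (Subgroup G) × (G → ℂ) | IsPair p M χ x ∧ dfc p x = d ∧ Vx X x = ⊤} := by
    ext x
    simp only [Set.mem_ofPred_eq, bot_sup_eq, top_le_iff]
  rw [hset] at hsum
  set Y := {x : Finset (Subgroup G) × (G → ℂ) | IsPair p M χ x ∧ dfc p x = d ∧ Vx X x = ⊤}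
    with hY
  have hYf : Y.Finite := (BAS_fin hIF p M χ).subset fun x hx => hx.1
  set c : ℕ := {x : A × A | Subgroup.closure {x.1, x.2} = (⊤ : Subgroup A)}.ncard with hc
  have hc0 : c ≠ 0 := by
    rw [hc]
    refine (Set.ncard_pos (Set.toFinite _)).2 ⟨(s, t), ?_⟩ |>.ne'
    rw [Set.mem_ofPred_eq, eq_top_iff]
    intro x _
    obtain ⟨i, j, hij⟩ := hgen x
    rw [Subgroup.mem_bot] at hij
    have hx : x = (s ^ i * t ^ j)⁻¹ := by
      rw [eq_inv_iff_mul_eq_one, hab]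
      exact hij
    rw [hx]
    refine Subgroup.inv_mem _ (Subgroup.mul_mem _ (Subgroup.zpow_mem _ ?_ _)
      (Subgroup.zpow_mem _ ?_ _))
    · exact Subgroup.subset_closure (by simp)
    · exact Subgroup.subset_closure (by simp)
  have hJ : ∀ x ∈ Y, JQ ⊤ (om (α x)) = (c : ℂ) := by
    intro x hx
    obtain ⟨hx1, -, hx3⟩ := hx
    obtain ⟨h1, h2, h3⟩ := hpair x hx1
    refine BAS_gen _ fun y z => ?_
    refine hOMC E A X.proj (X.stab x.1 x.2) hab _ h1 _ (hα x hx1) ?_ y ?_ z ?_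
    · intro r hr hrA
      by_cases hrG : r ∣ Nat.card G
      · right
        refine hcyc r hr ?_ hrG
        rintro rfl
        exact hpA hrA
      · left
        intro hr2
        apply hrG
        rw [h3, Subgroup.card_map_of_injective X.inc_injective] at hr2
        exact hr2.trans (Subgroup.card_subgroup_dvd_card _)
    · have : y ∈ Vx X x := by rw [hx3]; trivial
      exact this
    · have : z ∈ Vx X x := by rw [hx3]; trivial
      exact this
  rw [finsum_mem_eq_finite_toFinset_sum _ hYf] at hsum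
  have h5 : ∑ x ∈ hYf.toFinset, (wt x : ℂ) * JQ ⊤ (om (α x)) =
      ((∑ x ∈ hYf.toFinset, wt x : ℤ) : ℂ) * (c : ℂ) := by
    rw [Int.cast_sum, Finset.sum_mul]
    refine Finset.sum_congr rfl fun x hx => ?_
    rw [hJ x (hYf.mem_toFinset.1 hx)]
  rw [h5] at hsum
  have h6 : (∑ x ∈ hYf.toFinset, wt x : ℤ) = 0 := by
    rcases mul_eq_zero.1 hsum with h | h
    · exact_mod_cast h
    · exact absurd (by exact_mod_cast h) hc0
  have h7 := hPAL G E A X p M χ hχ d ⊤
  rw [← hY, finsum_mem_eq_finite_toFinset_sum _ hYf] at h7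
  have h8 : (∑ x ∈ hYf.toFinset, (-1) ^ (x.1.card + 1) * (Nat.card (nrm x.1) : ℤ)) =
      ∑ x ∈ hYf.toFinset, wt x := rfl
  rw [h8, h6] at h7
  rcases mul_eq_zero.1 h7 with h | h
  · exfalso
    have : Nat.card G ≠ 0 := Nat.card_pos.ne'
    exact this (by exact_mod_cast h)
  · exact h

end Pool.Agent.NQ
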